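import Pool.Agent.H94.LP3.H18.FatDefs

/-!
# Lines of singular points through two points of high multiplicity
-/

namespace Pool.Agent.H18.Ex

open MvPolynomial Pool.Agent.H18.Fat

/-- The restriction of `F` to the line `q + t v`, as a polynomial in `t`. -/
noncomputable def line {n : ℕ} (q v : Fin n → ℂ) (F : MvPolynomial (Fin n) ℂ) : Polynomial ℂ :=
  aeval (fun i => Polynomial.C (q i) + Polynomial.C (v i) * Polynomial.X) F

theorem eval_line {n : ℕ} (q v : Fin n → ℂ) (F : MvPolynomial (Fin n) ℂ) (t : ℂ) :
    (line q v F).eval t = eval (fun i => q i + t * v i) F := by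
  unfold line
  induction F using MvPolynomial.induction_on with
  | C a => simp
  | add p q hp hq => rw [map_add, Polynomial.eval_add, hp, hq, map_add]
  | mul_X p i hp =>
    rw [map_mul, Polynomial.eval_mul, hp, map_mul, aeval_X, eval_X]
    simp only [Polynomial.eval_add, Polynomial.eval_mul, Polynomial.eval_C, Polynomial.eval_X]
    ring

theorem line_shift {n : ℕ} (q v : Fin n → ℂ) (F : MvPolynomial (Fin n) ℂ) :
    line q v F = line 0 v (shift q F) := by
  unfold line shift
  induction F using MvPolynomial.induction_on with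
  | C a => simp
  | add p q hp hq => rw [map_add, hp, hq, map_add, map_add]
  | mul_X p i hp =>
    rw [map_mul, hp, map_mul, map_mul, aeval_X, aeval_X, map_add, aeval_X]
    congr 1
    simp only [Pi.zero_apply, map_zero, zero_add, aeval_C]
    rw [add_comm]
    rfl

theorem line_zero_monomial {n : ℕ} (v : Fin n → ℂ) (α : Fin n →₀ ℕ) (c : ℂ) :
    line 0 v (monomial α c) = Polynomial.C (c * ∏ i, v i ^ α i) * Polynomial.X ^ α.degree := by
  unfold line
  rw [aeval_monomial, Finsupp.prod_fintype _ _ (fun i => pow_zero _)]
  simp only [Pi.zero_apply, map_zero, zero_add, mul_pow]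
  rw [Finset.prod_mul_distrib, Finset.prod_pow_eq_pow_sum, Finsupp.degree_eq_sum, map_mul,
    map_prod]
  simp only [map_pow]
  rw [mul_assoc]
  rfl

theorem coeff_line {n : ℕ} {q v : Fin n → ℂ} {F : MvPolynomial (Fin n) ℂ} {m k : ℕ}
    (h : VanishesToOrder F q m) (hk : k < m) : (line q v F).coeff k = 0 := by
  rw [line_shift]
  have h1 : line 0 v (shift q F) =
      ∑ α ∈ (shift q F).support, line 0 v (monomial α (coeff α (shift q F))) := by
    conv_lhs => rw [(shift q F).as_sum]
    unfold line
    rw [map_sum]
  rw [h1, Polynomial.finset_sum_coeff]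
  refine Finset.sum_eq_zero fun α hα => ?_
  rw [line_zero_monomial, Polynomial.coeff_C_mul_X_pow, if_neg]
  intro h2
  exact (mem_support_iff.1 hα) (h α (by omega))

theorem shift_pderiv {n : ℕ} (q : Fin n → ℂ) (j : Fin n) (F : MvPolynomial (Fin n) ℂ) :
    shift q (pderiv j F) = pderiv j (shift q F) := by
  unfold shift
  induction F using MvPolynomial.induction_on with
  | C a => simp
  | add p q hp hq => rw [map_add, map_add, hp, hq, map_add, map_add]
  | mul_X p i hp =>
    rw [Derivation.leibniz, map_mul, Derivation.leibniz, map_add, aeval_X, smul_eq_mul,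
      smul_eq_mul, smul_eq_mul, smul_eq_mul, map_mul, map_mul, hp, aeval_X, map_add, pderiv_C,
      add_zero, pderiv_X]
    by_cases hij : i = j
    · subst hij
      simp
    · have h0 : (Pi.single j (1 : MvPolynomial (Fin n) ℂ) : Fin n → MvPolynomial (Fin n) ℂ) i = 0 :=
        Pi.single_eq_of_ne hij _
      rw [h0, map_zero, mul_zero]

theorem VanishesToOrder.pderiv {n : ℕ} {F : MvPolynomial (Fin n) ℂ} {q : Fin n → ℂ} {m : ℕ}
    (h : VanishesToOrder F q m) (j : Fin n) : VanishesToOrder (pderiv j F) q (m - 1) := by
  intro β hβ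
  rw [shift_pderiv, (shift q F).as_sum, map_sum, coeff_sum]
  refine Finset.sum_eq_zero fun α hα => ?_
  rw [pderiv_monomial, coeff_monomial]
  by_cases h0 : α j = 0
  · rw [h0, Nat.cast_zero, mul_zero, ite_self]
  · rw [if_neg]
    intro h1
    apply mem_support_iff.1 hα
    apply h
    have h2 : β + Finsupp.single j 1 = α := by
      rw [← h1]
      ext i
      by_cases hi : i = j
      · subst hi
        simp only [Finsupp.add_apply, Finsupp.tsub_apply, Finsupp.single_eq_same]
        omega
      · simp [Finsupp.single_eq_of_ne hi]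
    rw [← h2, map_add, Finsupp.degree_single]
    omega

theorem eval_smul_of_homogeneous {n D : ℕ} {G : MvPolynomial (Fin n) ℂ} (hG : G.IsHomogeneous D)
    (t : ℂ) (x : Fin n → ℂ) : eval (fun i => t * x i) G = t ^ D * eval x G := by
  rw [eval_eq', eval_eq', Finset.mul_sum]
  refine Finset.sum_congr rfl fun α hα => ?_
  have h1 : α.degree = D := by
    have := hG (mem_support_iff.1 hα)
    rw [Finsupp.degree_eq_weight_one]
    exact this
  simp only [mul_pow]
  rw [Finset.prod_mul_distrib, Finset.prod_pow_eq_pow_sum, ← Finsupp.degree_eq_sum, h1]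
  ring

/-- A form of degree `D` vanishing to orders `a`, `b` with `a + b > D` at two points vanishes on
the line through them. -/
theorem line_eq_zero {n D a b : ℕ} {G : MvPolynomial (Fin n) ℂ} (hG : G.IsHomogeneous D)
    {q v : Fin n → ℂ} (ha : VanishesToOrder G q a) (hb : VanishesToOrder G v b)
    (hab : D < a + b) : line q v G = 0 := by
  set A := line q v G with hA
  set B := line v q G with hB
  set N := B.natDegree + D with hN
  have hinv : ∀ t : ℂ, t ≠ 0 → A.eval t = t ^ D * B.eval t⁻¹ := by
    intro t ht
    rw [hA, hB, eval_line, eval_line, ← eval_smul_of_homogeneous hG]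
    congr 2
    funext i
    field_simp
    ring
  have hpoly : Polynomial.X ^ (N + 1) * A = Polynomial.X ^ (D + 1) * Polynomial.reflect N B := by
    apply Polynomial.funext
    intro t
    by_cases ht : t = 0
    · subst ht
      simp
    · let _ : Invertible t⁻¹ := invertibleOfNonzero (inv_ne_zero ht)
      have h1 := Polynomial.eval₂_reflect_mul_pow (RingHom.id ℂ) t⁻¹ N B (by omega)
      have h2 : (⅟(t⁻¹) : ℂ) = t := by rw [invOf_eq_inv, inv_inv]
      rw [h2] at h1
      simp only [Polynomial.eval_mul, Polynomial.eval_pow, Polynomial.eval_X]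
      rw [hinv t ht]
      have h3 : B.eval t⁻¹ = Polynomial.eval₂ (RingHom.id ℂ) t⁻¹ B := rfl
      have h4 : Polynomial.eval t (Polynomial.reflect N B) =
        Polynomial.eval₂ (RingHom.id ℂ) t (Polynomial.reflect N B) := rfl
      rw [h3, ← h1, ← h4, inv_pow]
      have h5 : t ^ N ≠ 0 := pow_ne_zero _ ht
      field_simp
      ring
  ext k
  rw [Polynomial.coeff_zero]
  by_cases hk : k < a
  · exact coeff_line ha hk
  · have h1 := congrArg (fun P => Polynomial.coeff P (k + (N + 1))) hpoly
    rw [Polynomial.coeff_X_pow_mul] at h1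
    have h2 : k + (N + 1) = (k + N - D) + (D + 1) := by omega
    rw [h2, Polynomial.coeff_X_pow_mul, Polynomial.coeff_reflect] at h1
    rw [h1]
    by_cases hkD : k ≤ D
    · rw [Polynomial.revAt_le (by omega)]
      exact coeff_line hb (by omega)
    · rw [Polynomial.revAt_eq_self_of_lt (by omega)]
      exact Polynomial.coeff_eq_zero_of_natDegree_lt (by omega)

/-- All first derivatives vanish on the line through two points of high multiplicity. -/
theorem singular_line {n d a b : ℕ} {F : MvPolynomial (Fin n) ℂ} (hF : F.IsHomogeneous d)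
    {q v : Fin n → ℂ} (ha : VanishesToOrder F q a) (hb : VanishesToOrder F v b)
    (had : a ≤ d) (hbd : b ≤ d) (hab : d + 2 ≤ a + b) (j : Fin n) (t : ℂ) :
    eval (fun i => q i + t * v i) (pderiv j F) = 0 := by
  rw [← eval_line, line_eq_zero (hF.pderiv (i := j)) (VanishesToOrder.pderiv ha j)
    (VanishesToOrder.pderiv hb j) (by omega), Polynomial.eval_zero]

end Pool.Agent.H18.Ex
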